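import Pool.Agent.PG3.Final2

/-!
# The number of small gaps between consecutive perfect powers
-/

open Filter

namespace Pool.Agent.Results.MP_3ffd6f_nt.SmallGapAsymptotic

/-- Let `a_n = Nat.nth P (n - 1)`, `n ≥ 1`, be the `n`-th perfect power. For `7/10 < θ < 1` and
`lam > 0`, and for `θ = 1` and `0 < lam < 2`, the number of `n ≤ N` with
`a_{n+1} - a_n ≤ lam n ^ θ` is asymptotic to `2 lam / (3 θ - 1) * N ^ (θ - 1/3)`. -/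
theorem result (θ lam : ℝ) (h1 : 7 / 10 < θ) (h2 : θ ≤ 1) (h3 : 0 < lam) (h4 : θ < 1 ∨ lam < 2) :
    Tendsto (fun N : ℕ =>
      (((Finset.Icc 1 N).filter (fun n : ℕ =>
        ((Nat.nth (fun x : ℕ => ∃ m k : ℕ, 2 ≤ m ∧ 2 ≤ k ∧ m ^ k = x) n : ℕ) : ℝ) -
        ((Nat.nth (fun x : ℕ => ∃ m k : ℕ, 2 ≤ m ∧ 2 ≤ k ∧ m ^ k = x) (n - 1) : ℕ) : ℝ)
          ≤ lam * (n : ℝ) ^ θ)).card : ℝ) / (N : ℝ) ^ (θ - 1 / 3))
      atTop (nhds (2 * lam / (3 * θ - 1))) :=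
  Pool.Agent.PG3.main2 h1 h2 h3 h4

end Pool.Agent.Results.MP_3ffd6f_nt.SmallGapAsymptotic
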